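import Mathlib

/-!
Generation of a von Neumann algebra with a separating trace vector: 2-norm density implies
generation.
-/

set_option autoImplicit false

open scoped InnerProductSpace ComplexConjugate

namespace H327R2.GEN

variable {H : Type*} [NormedAddCommGroup H] [InnerProductSpace ℂ H] [CompleteSpace H]

/-- `Ω` is a separating trace vector for `M`. -/
structure TrV (M : VonNeumannAlgebra H) (Ω : H) : Prop where
  tr : ∀ x ∈ M, ∀ y ∈ M, ⟪Ω, x (y Ω)⟫_ℂ = ⟪Ω, y (x Ω)⟫_ℂ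
  sep : ∀ x ∈ M, x Ω = 0 → x = 0

theorem TrV.norm_star {M : VonNeumannAlgebra H} {Ω : H} (h : TrV M Ω) {x : H →L[ℂ] H}
    (hx : x ∈ M) : ‖star x Ω‖ = ‖x Ω‖ := by
  have h1 := h.tr x hx (star x) (star_mem hx)
  have h2 : ⟪star x Ω, star x Ω⟫_ℂ = ⟪x Ω, x Ω⟫_ℂ := by
    rw [ContinuousLinearMap.star_eq_adjoint] at h1 ⊢
    rw [ContinuousLinearMap.adjoint_inner_left, h1]
    rw [ContinuousLinearMap.adjoint_inner_right]
  rw [inner_self_eq_norm_sq_to_K, inner_self_eq_norm_sq_to_K] at h2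
  have h3 : ‖star x Ω‖ ^ 2 = ‖x Ω‖ ^ 2 := by exact_mod_cast h2
  exact (sq_eq_sq₀ (norm_nonneg _) (norm_nonneg _)).1 h3

/-- A separating vector of `M` is cyclic for the commutant. -/
theorem dense_commutant {M : VonNeumannAlgebra H} {Ω : H} (hsep : ∀ x ∈ M, x Ω = 0 → x = 0) :
    Dense {ξ : H | ∃ t ∈ M.commutant, t Ω = ξ} := by
  classical
  -- the closed subspace
  let K0 : Submodule ℂ H :=
    { carrier := {ξ : H | ∃ t ∈ M.commutant, t Ω = ξ}
      zero_mem' := ⟨0, zero_mem _, by simp⟩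
      add_mem' := by
        rintro a b ⟨s, hs, rfl⟩ ⟨t, ht, rfl⟩
        exact ⟨s + t, add_mem hs ht, by simp⟩
      smul_mem' := by
        rintro c a ⟨s, hs, rfl⟩
        exact ⟨c • s, (M.commutant.toStarSubalgebra.smul_mem hs c), by simp⟩ }
  let K : Submodule ℂ H := K0.topologicalClosure
  have hKc : IsClosed (K : Set H) := K0.isClosed_topologicalClosure
  have : CompleteSpace K := hKc.completeSpace_coe
  have : K.HasOrthogonalProjection := inferInstance
  let P : H →L[ℂ] H := K.starProjection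
  have hinv : ∀ t ∈ M.commutant, ∀ ξ ∈ K, t ξ ∈ K := by
    intro t ht ξ hξ
    have h1 : Set.MapsTo t (K0 : Set H) (K0 : Set H) := by
      rintro _ ⟨s, hs, rfl⟩
      exact ⟨t * s, mul_mem ht hs, rfl⟩
    exact (h1.closure t.continuous) hξ
  have hP : P ∈ M := by
    rw [← M.commutant_commutant]
    rw [VonNeumannAlgebra.mem_commutant_iff]
    intro t ht
    -- t commutes with P
    have ht' : star t ∈ M.commutant := star_mem ht
    ext ξ
    have h1 : t (K.starProjection ξ) ∈ K := hinv t ht _ (Submodule.starProjection_apply_mem K ξ)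
    have h2 : t (ξ - K.starProjection ξ) ∈ Kᗮ := by
      intro η hη
      have h3 : star t η ∈ K := hinv _ ht' η hη
      have h4 : ξ - K.starProjection ξ ∈ Kᗮ := Submodule.sub_starProjection_mem_orthogonal ξ
      have h5 := h4 _ h3
      rw [ContinuousLinearMap.star_eq_adjoint, ContinuousLinearMap.adjoint_inner_left] at h5
      exact h5
    have h6 : K.starProjection (t ξ) = t (K.starProjection ξ) := by
      refine Submodule.eq_starProjection_of_mem_orthogonal h1 ?_
      rw [← map_sub]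
      exact h2
    change t (P ξ) = P (t ξ)
    exact h6.symm
  have hΩ : Ω ∈ K := K0.le_topologicalClosure ⟨1, one_mem _, by simp⟩
  have h1P : (1 - P) = 0 := by
    refine hsep _ (sub_mem (one_mem _) hP) ?_
    have : P Ω = Ω := Submodule.starProjection_eq_self_iff.2 hΩ
    simp [this]
  have hP1 : P = 1 := (sub_eq_zero.1 h1P).symm
  intro ξ
  have h7 : P ξ ∈ K := Submodule.starProjection_apply_mem K ξ
  rw [hP1] at h7
  exact h7

/-- 2-norm density implies generation. -/
theorem mem_centralizer_of_closure {M : VonNeumannAlgebra H} {Ω : H} (h : TrV M Ω)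
    (S : Set (H →L[ℂ] H)) (hS : ∀ a ∈ S, a ∈ M)
    {y : H →L[ℂ] H} (hy : y ∈ M) (hcl : y Ω ∈ closure {ξ : H | ∃ a ∈ S, a Ω = ξ}) :
    ∀ t : H →L[ℂ] H, (∀ a ∈ S, t * a = a * t) → t * y = y * t := by
  intro t ht
  have hd := dense_commutant h.sep
  obtain ⟨u, hu, hul⟩ := mem_closure_iff_seq_limit.1 hcl
  choose a ha hau using hu
  have haM : ∀ n, a n ∈ M := fun n => hS _ (ha n)
  -- convergence on the dense set
  have hconv : ∀ s ∈ M.commutant, Filter.Tendsto (fun n => a n (s Ω)) Filter.atTop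
      (nhds (y (s Ω))) := by
    intro s hs
    have h1 : ∀ x ∈ M, x (s Ω) = s (x Ω) := by
      intro x hx
      have := (VonNeumannAlgebra.mem_commutant_iff.1 hs) x hx
      exact congrArg (fun T : H →L[ℂ] H => T Ω) this
    have h2 : (fun n => a n (s Ω)) = fun n => s (u n) := by
      ext n; rw [h1 _ (haM n), hau]
    rw [h2, h1 _ hy]
    exact (s.continuous.tendsto _).comp hul
  have hconv' : ∀ s ∈ M.commutant, Filter.Tendsto (fun n => star (a n) (s Ω)) Filter.atTop
      (nhds (star y (s Ω))) := by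
    intro s hs
    have h1 : ∀ x ∈ M, x (s Ω) = s (x Ω) := by
      intro x hx
      have := (VonNeumannAlgebra.mem_commutant_iff.1 hs) x hx
      exact congrArg (fun T : H →L[ℂ] H => T Ω) this
    have h2 : Filter.Tendsto (fun n => star (a n) Ω) Filter.atTop (nhds (star y Ω)) := by
      rw [tendsto_iff_norm_sub_tendsto_zero]
      have h3 : (fun n => ‖star (a n) Ω - star y Ω‖) = fun n => ‖u n - y Ω‖ := by
        ext n
        have h4 : star (a n) Ω - star y Ω = star (a n - y) Ω := by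
          rw [star_sub]; simp
        rw [h4, h.norm_star (sub_mem (haM n) hy)]
        simp [hau]
      rw [h3]
      exact tendsto_iff_norm_sub_tendsto_zero.1 hul
    have h5 : (fun n => star (a n) (s Ω)) = fun n => s (star (a n) Ω) := by
      ext n; rw [h1 _ (star_mem (haM n))]
    rw [h5, h1 _ (star_mem hy)]
    exact (s.continuous.tendsto _).comp h2
  -- sesquilinear identity on the dense set
  have key : ∀ s₁ ∈ M.commutant, ∀ s₂ ∈ M.commutant,
      ⟪s₂ Ω, (t * y) (s₁ Ω)⟫_ℂ = ⟪s₂ Ω, (y * t) (s₁ Ω)⟫_ℂ := by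
    intro s₁ hs₁ s₂ hs₂
    have h1 : Filter.Tendsto (fun n => ⟪s₂ Ω, t (a n (s₁ Ω))⟫_ℂ) Filter.atTop
        (nhds ⟪s₂ Ω, t (y (s₁ Ω))⟫_ℂ) :=
      Filter.Tendsto.inner tendsto_const_nhds ((t.continuous.tendsto _).comp (hconv s₁ hs₁))
    have h2 : Filter.Tendsto (fun n => ⟪star (a n) (s₂ Ω), t (s₁ Ω)⟫_ℂ) Filter.atTop
        (nhds ⟪star y (s₂ Ω), t (s₁ Ω)⟫_ℂ) :=
      Filter.Tendsto.inner (hconv' s₂ hs₂) tendsto_const_nhds
    have h3 : (fun n => ⟪s₂ Ω, t (a n (s₁ Ω))⟫_ℂ) = fun n => ⟪star (a n) (s₂ Ω), t (s₁ Ω)⟫_ℂ := by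
      ext n
      have h4 := congrArg (fun T : H →L[ℂ] H => T (s₁ Ω)) (ht _ (ha n))
      have h5 : t (a n (s₁ Ω)) = a n (t (s₁ Ω)) := h4
      rw [h5, ContinuousLinearMap.star_eq_adjoint, ContinuousLinearMap.adjoint_inner_left]
    rw [h3] at h1
    have h6 := tendsto_nhds_unique h1 h2
    rw [ContinuousLinearMap.star_eq_adjoint, ContinuousLinearMap.adjoint_inner_left] at h6
    exact h6
  -- density
  have hd1 : ∀ s₁ ∈ M.commutant, (t * y) (s₁ Ω) = (y * t) (s₁ Ω) := by
    intro s₁ hs₁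
    refine hd.eq_of_inner_right ℂ ?_
    rintro _ ⟨s₂, hs₂, rfl⟩
    exact key s₁ hs₁ s₂ hs₂
  ext ξ
  have h8 : Set.EqOn (t * y) (y * t) {ξ : H | ∃ t ∈ M.commutant, t Ω = ξ} := by
    rintro _ ⟨s₁, hs₁, rfl⟩
    exact hd1 s₁ hs₁
  exact congrFun (Continuous.ext_on hd (t * y).continuous (y * t).continuous h8) ξ

end H327R2.GEN
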